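import Mathlib

set_option autoImplicit false

/-!
# MP_10ddbf_co: small isolated sets of runners: time averages
-/

namespace Pool.Agent.WLR2

open MeasureTheory Finset

/-- Time averages of a nonnegative periodic function along a line: positive speed. -/
theorem avg_pos (F : ℝ → ℝ) (hper : Function.Periodic F 1) (hF : ∀ x, 0 ≤ F x)
    (hint : ∀ a b, IntervalIntegrable F volume a b) (I : ℝ) (hI : ∫ x in (0 : ℝ)..1, F x ≤ I)
    (w : ℝ) (hw : 0 < w) (T : ℝ) (hT : 0 ≤ T) :
    ∫ t in (0 : ℝ)..T, F (t * w) ≤ (T + 1 / w) * I := by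
  have hI0 : 0 ≤ I := le_trans (intervalIntegral.integral_nonneg (by norm_num) fun x _ => hF x) hI
  rw [intervalIntegral.integral_comp_mul_right F hw.ne', zero_mul, smul_eq_mul]
  have h1 : ∫ x in (0 : ℝ)..(T * w), F x ≤ ∫ x in (0 : ℝ)..((⌈T * w⌉ : ℤ) : ℝ), F x := by
    apply intervalIntegral.integral_mono_interval le_rfl (by positivity) (Int.le_ceil _)
    · exact Filter.Eventually.of_forall fun x => hF x
    · exact hint _ _
  have h2 : ∫ x in (0 : ℝ)..((⌈T * w⌉ : ℤ) : ℝ), F x = (⌈T * w⌉ : ℤ) * ∫ x in (0 : ℝ)..1, F x := by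
    have h3 := hper.intervalIntegral_add_zsmul_eq ⌈T * w⌉ 0 hint
    rw [zsmul_eq_mul, zsmul_eq_mul, mul_one, zero_add, zero_add] at h3
    exact h3
  rw [h2] at h1
  have h4 : ((⌈T * w⌉ : ℤ) : ℝ) ≤ T * w + 1 := (Int.ceil_lt_add_one _).le
  have h5 : (0 : ℝ) ≤ ((⌈T * w⌉ : ℤ) : ℝ) := by
    have : (0 : ℝ) ≤ T * w := by positivity
    exact this.trans (Int.le_ceil _)
  have h6 : ((⌈T * w⌉ : ℤ) : ℝ) * ∫ x in (0 : ℝ)..1, F x ≤ (T * w + 1) * I := by
    refine (mul_le_mul_of_nonneg_left hI h5).trans ?_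
    exact mul_le_mul_of_nonneg_right h4 hI0
  calc w⁻¹ * ∫ x in (0 : ℝ)..(T * w), F x ≤ w⁻¹ * ((T * w + 1) * I) := by
        apply mul_le_mul_of_nonneg_left (h1.trans h6)
        positivity
    _ = (T + 1 / w) * I := by
        field_simp

/-- Time averages of a nonnegative periodic function along a line. -/
theorem avg (F : ℝ → ℝ) (hper : Function.Periodic F 1) (hF : ∀ x, 0 ≤ F x)
    (hint : ∀ a b, IntervalIntegrable F volume a b) (I : ℝ) (hI : ∫ x in (0 : ℝ)..1, F x ≤ I)
    (w : ℝ) (hw : w ≠ 0) (T : ℝ) (hT : 0 ≤ T) :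
    ∫ t in (0 : ℝ)..T, F (t * w) ≤ (T + 1 / |w|) * I := by
  rcases lt_or_gt_of_ne hw with h | h
  · have h1 := avg_pos (fun x => F (-x)) (fun x => ?_) (fun x => hF _) ?_ I ?_ (-w)
      (by linarith) T hT
    · rw [abs_of_neg h]
      refine le_trans (le_of_eq ?_) h1
      apply intervalIntegral.integral_congr
      intro t _
      show F (t * w) = F (-(t * -w))
      congr 1
      ring
    · show F (-(x + 1)) = F (-x)
      rw [← hper (-(x + 1))]
      congr 1
      ring
    · intro a b
      have := (IntervalIntegrable.iff_comp_neg (f := F) (by simp)).1 (hint (-a) (-b))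
      rw [neg_neg, neg_neg] at this
      exact this
    · have h2 : ∫ x in (0 : ℝ)..1, F (-x) = ∫ x in (-1 : ℝ)..0, F x := by
        rw [intervalIntegral.integral_comp_neg]
        simp
      have h3 : ∫ x in (-1 : ℝ)..0, F x = ∫ x in (0 : ℝ)..1, F x := by
        have := hper.intervalIntegral_add_eq (-1) 0
        simpa using this
      show ∫ x in (0 : ℝ)..1, F (-x) ≤ I
      rw [h2, h3]
      exact hI
  · rw [abs_of_pos h]
    exact avg_pos F hper hF hint I hI w h T hT

/-- At almost all times the positions are distinct. -/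
theorem generic {n : ℕ} (v : Fin n → ℝ) (hv : Function.Injective v) :
    ∀ᵐ t : ℝ, Function.Injective fun i => Int.fract (t * v i) := by
  have h1 : ∀ i j, i ≠ j → ∀ᵐ t : ℝ, Int.fract (t * v i) ≠ Int.fract (t * v j) := by
    intro i j hij
    have hne : v i - v j ≠ 0 := sub_ne_zero.2 fun h => hij (hv h)
    have hc : (Set.range fun k : ℤ => (k : ℝ) / (v i - v j)).Countable := Set.countable_range _
    filter_upwards [hc.ae_notMem volume] with t ht h
    apply ht
    rw [Int.fract_eq_fract] at h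
    obtain ⟨z, hz⟩ := h
    refine ⟨z, ?_⟩
    show (z : ℝ) / (v i - v j) = t
    rw [← hz]
    field_simp
  have h2 : ∀ᵐ t : ℝ, ∀ i j, i ≠ j → Int.fract (t * v i) ≠ Int.fract (t * v j) := by
    rw [ae_all_iff]
    intro i
    rw [ae_all_iff]
    intro j
    by_cases hij : i = j
    · exact Filter.Eventually.of_forall fun t h => absurd hij h
    · filter_upwards [h1 i j hij] with t ht _
      exact ht
  filter_upwards [h2] with t ht i j hij
  by_contra h
  exact ht i j h hij

/-- The averaging argument. -/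
theorem main {n : ℕ} (v : Fin n → ℝ) (hv : Function.Injective v) (G : ℝ → ℝ) (hm : Measurable G)
    (hG : ∀ s, 0 ≤ G s) (M : ℝ) (hM : ∀ s, G s ≤ M ∨ s < 0) (I : ℝ)
    (hI : ∫ x in (0 : ℝ)..1, G x ≤ I) (μ : ℝ) (hμ : (n : ℝ) * ((n : ℝ) - 1) * I < μ)
    (P : (Fin n → ℝ) → Prop)
    (hP : ∀ θ : Fin n → ℝ, (Function.Injective fun i => Int.fract (θ i)) → ¬ P θ →
      μ ≤ ∑ i, ∑ j ∈ univ.erase i, G (Int.fract (θ j - θ i))) :
    ∃ t : ℝ, P fun i => t * v i := by
  by_contra hno
  push Not at hno
  set F : ℝ → ℝ := fun x => G (Int.fract x) with hFdef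
  have hFm : Measurable F := hm.comp measurable_fract
  have hF0 : ∀ x, 0 ≤ F x := fun x => hG _
  have hFM : ∀ x, F x ≤ M := by
    intro x
    rcases hM (Int.fract x) with h | h
    · exact h
    · exact absurd h (not_lt.2 (Int.fract_nonneg x))
  have hFper : Function.Periodic F 1 := fun x => by
    show G (Int.fract (x + 1)) = G (Int.fract x)
    rw [Int.fract_add_one]
  have hint : ∀ (c a b : ℝ), IntervalIntegrable (fun t => F (t * c)) volume a b := by
    intro c a b
    have h1 : IntervalIntegrable (fun _ : ℝ => M) volume a b := intervalIntegrable_const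
    refine h1.mono_fun (hFm.comp (measurable_id.mul_const c)).aestronglyMeasurable ?_
    refine Filter.Eventually.of_forall fun t => ?_
    show ‖F (t * c)‖ ≤ ‖M‖
    rw [Real.norm_of_nonneg (hF0 _), Real.norm_of_nonneg ((hF0 0).trans (hFM 0))]
    exact hFM _
  have hint1 : ∀ a b : ℝ, IntervalIntegrable F volume a b := by
    intro a b
    have := hint 1 a b
    simpa using this
  have hIF : ∫ x in (0 : ℝ)..1, F x ≤ I := by
    refine le_trans (le_of_eq ?_) hI
    apply intervalIntegral.integral_congr_ae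
    have h1 : ∀ᵐ x : ℝ, x ≠ 1 := by
      have : ({1} : Set ℝ).Countable := Set.countable_singleton 1
      filter_upwards [this.ae_notMem volume] with x hx
      exact hx
    filter_upwards [h1] with x hx hx2
    rw [Set.uIoc_of_le zero_le_one, Set.mem_Ioc] at hx2
    show G (Int.fract x) = G x
    rw [Int.fract_eq_self.2 ⟨hx2.1.le, lt_of_le_of_ne hx2.2 hx⟩]
  have hsum : ∀ (i : Fin n) (a b : ℝ),
      IntervalIntegrable (fun t => ∑ j ∈ univ.erase i, F (t * (v j - v i))) volume a b := by
    intro i a b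
    have h1 : (fun t => ∑ j ∈ univ.erase i, F (t * (v j - v i))) =
        ∑ j ∈ univ.erase i, fun t => F (t * (v j - v i)) := by
      ext t
      rw [Finset.sum_apply]
    rw [h1]
    exact IntervalIntegrable.sum _ fun j _ => hint (v j - v i) a b
  -- the integral of the pair sum
  have hup : ∃ C : ℝ, ∀ T : ℝ, 0 ≤ T →
      ∫ t in (0 : ℝ)..T, ∑ i, ∑ j ∈ univ.erase i, F (t * (v j - v i)) ≤
        (n : ℝ) * ((n : ℝ) - 1) * I * T + C := by
    refine ⟨∑ i : Fin n, ∑ j ∈ univ.erase i, 1 / |v j - v i| * I, fun T hT => ?_⟩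
    rw [intervalIntegral.integral_finsetSum fun i _ => hsum i 0 T]
    have h1 : ∀ i ∈ (univ : Finset (Fin n)),
        ∫ t in (0 : ℝ)..T, ∑ j ∈ univ.erase i, F (t * (v j - v i)) ≤
          ((n : ℝ) - 1) * I * T + ∑ j ∈ univ.erase i, 1 / |v j - v i| * I := by
      intro i _
      rw [intervalIntegral.integral_finsetSum fun j _ => hint (v j - v i) 0 T]
      have h2 : ∀ j ∈ univ.erase i, ∫ t in (0 : ℝ)..T, F (t * (v j - v i)) ≤
          T * I + 1 / |v j - v i| * I := by
        intro j hj
        have hne : v j - v i ≠ 0 := sub_ne_zero.2 fun h => (Finset.mem_erase.1 hj).1 (hv h)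
        refine (avg F hFper hF0 hint1 I hIF (v j - v i) hne T hT).trans (le_of_eq ?_)
        ring
      refine (Finset.sum_le_sum h2).trans (le_of_eq ?_)
      rw [Finset.sum_add_distrib, Finset.sum_const, Finset.card_erase_of_mem (Finset.mem_univ i),
        Finset.card_univ, Fintype.card_fin, nsmul_eq_mul]
      have hn : 1 ≤ n := by
        have := i.2
        omega
      push_cast [hn]
      ring
    refine (Finset.sum_le_sum h1).trans (le_of_eq ?_)
    rw [Finset.sum_add_distrib, Finset.sum_const, Finset.card_univ, Fintype.card_fin,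
      nsmul_eq_mul]
    ring
  obtain ⟨C, hC⟩ := hup
  have hlow : ∀ T : ℝ, 0 ≤ T → μ * T ≤
      ∫ t in (0 : ℝ)..T, ∑ i, ∑ j ∈ univ.erase i, F (t * (v j - v i)) := by
    intro T hT
    have h1 : ∫ t in (0 : ℝ)..T, μ = μ * T := by
      rw [intervalIntegral.integral_const, smul_eq_mul]
      ring
    rw [← h1]
    apply intervalIntegral.integral_mono_ae hT intervalIntegrable_const
    · have h2 : (fun t => ∑ i, ∑ j ∈ univ.erase i, F (t * (v j - v i))) =
          ∑ i : Fin n, fun t => ∑ j ∈ univ.erase i, F (t * (v j - v i)) := by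
        ext t
        rw [Finset.sum_apply]
      rw [h2]
      exact IntervalIntegrable.sum _ fun i _ => hsum i 0 T
    · filter_upwards [generic v hv] with t ht
      have h2 := hP (fun i => t * v i) ht (hno t)
      refine h2.trans (le_of_eq ?_)
      apply Finset.sum_congr rfl
      intro i _
      apply Finset.sum_congr rfl
      intro j _
      show G (Int.fract (t * v j - t * v i)) = G (Int.fract (t * (v j - v i)))
      rw [mul_sub]
  set δ := μ - (n : ℝ) * ((n : ℝ) - 1) * I with hδ
  have hδ0 : 0 < δ := sub_pos.2 hμ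
  set T := (|C| + 1) / δ with hTdef
  have hT0 : 0 ≤ T := by positivity
  have h1 := (hlow T hT0).trans (hC T hT0)
  have h2 : δ * T ≤ C := by
    rw [hδ]
    linarith
  have h3 : δ * T = |C| + 1 := by
    rw [hTdef]
    field_simp
  have h4 := le_abs_self C
  linarith

end Pool.Agent.WLR2
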