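import Pool.Agent.WLR2.Point
import Pool.Agent.WLR2.Avg

set_option autoImplicit false

/-!
# MP_10ddbf_co: small isolated sets of runners: the theorem
-/

namespace Pool.Agent.WLR2

open MeasureTheory Finset

theorem G1_meas (d : ℝ) : Measurable (G1 d) := by
  unfold G1
  exact Measurable.ite measurableSet_Iic measurable_const measurable_const

theorem G2_meas (d : ℝ) : Measurable (G2 d) := by
  unfold G2
  refine Measurable.ite measurableSet_Iic ?_ ?_
  · fun_prop
  · fun_prop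

theorem G1_le (d s : ℝ) : G1 d s ≤ 1 := by
  unfold G1
  split_ifs <;> norm_num

theorem G2_le (d : ℝ) (hd : 0 < d) (s : ℝ) : G2 d s ≤ 7 ∨ s < 0 := by
  by_cases hs : s < 0
  · exact Or.inr hs
  left
  push Not at hs
  have h0 : 0 ≤ s / d := div_nonneg hs hd.le
  unfold G2
  split_ifs with h
  · have h1 : s / d ≤ 1 := by
      rw [div_le_one hd]
      exact h
    have h2 : max 0 (3 * (s / d) - 1) ≤ 2 := max_le (by norm_num) (by linarith)
    linarith
  · exact max_le (by norm_num) (by linarith)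

theorem lin (a b c k : ℝ) : ∫ x in a..b, (c + k * x) = c * (b - a) + k * (b ^ 2 - a ^ 2) / 2 := by
  have h1 : IntervalIntegrable (fun x : ℝ => k * x) volume a b :=
    (by fun_prop : Continuous fun x : ℝ => k * x).intervalIntegrable _ _
  have h2 : IntervalIntegrable (fun _ : ℝ => c) volume a b := intervalIntegrable_const
  rw [intervalIntegral.integral_add h2 h1, intervalIntegral.integral_const_mul,
    intervalIntegral.integral_const, integral_id, smul_eq_mul]
  ring

theorem bdd_int (G : ℝ → ℝ) (hm : Measurable G) (hG : ∀ s, 0 ≤ G s) (M : ℝ)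
    (hM : ∀ s, G s ≤ M ∨ s < 0) (a b : ℝ) (ha : 0 ≤ a) (hab : a ≤ b) :
    IntervalIntegrable G volume a b := by
  have h1 : IntervalIntegrable (fun _ : ℝ => M) volume a b := intervalIntegrable_const
  refine h1.mono_fun hm.aestronglyMeasurable ?_
  rw [Set.uIoc_of_le hab]
  refine (ae_restrict_mem measurableSet_Ioc).mono fun t ht => ?_
  have h2 : G t ≤ M := by
    rcases hM t with h | h
    · exact h
    · exfalso
      have := ht.1
      linarith
  show ‖G t‖ ≤ ‖M‖
  rw [Real.norm_of_nonneg (hG _), Real.norm_of_nonneg ((hG t).trans h2)]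
  exact h2

theorem G1_int (d : ℝ) (hd : 0 < d) (hd1 : d ≤ 1) : ∫ x in (0 : ℝ)..1, G1 d x ≤ d := by
  have hi : ∀ a b : ℝ, 0 ≤ a → a ≤ b → IntervalIntegrable (G1 d) volume a b :=
    bdd_int (G1 d) (G1_meas d) (G1_nonneg d) 1 fun s => Or.inl (G1_le d s)
  rw [← intervalIntegral.integral_add_adjacent_intervals (hi 0 d le_rfl hd.le)
    (hi d 1 hd.le hd1)]
  have h1 : ∫ x in (0 : ℝ)..d, G1 d x = ∫ x in (0 : ℝ)..d, (1 + 0 * x) := by
    apply intervalIntegral.integral_congr_ae
    refine Filter.Eventually.of_forall fun x hx => ?_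
    rw [Set.uIoc_of_le hd.le, Set.mem_Ioc] at hx
    unfold G1
    rw [if_pos hx.2]
    ring
  have h2 : ∫ x in d..1, G1 d x = ∫ x in d..1, (0 + 0 * x) := by
    apply intervalIntegral.integral_congr_ae
    refine Filter.Eventually.of_forall fun x hx => ?_
    rw [Set.uIoc_of_le hd1, Set.mem_Ioc] at hx
    unfold G1
    rw [if_neg (not_le.2 hx.1)]
    ring
  rw [h1, h2, lin, lin]
  apply le_of_eq
  ring

theorem G2_int (d : ℝ) (hd : 0 < d) (hd1 : 5 * d / 3 ≤ 1) : ∫ x in (0 : ℝ)..1, G2 d x ≤ 5 * d := by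
  have hi : ∀ a b : ℝ, 0 ≤ a → a ≤ b → IntervalIntegrable (G2 d) volume a b :=
    bdd_int (G2 d) (G2_meas d) (G2_nonneg d) 7 (G2_le d hd)
  have e1 : 0 ≤ d / 3 := by positivity
  have e2 : d / 3 ≤ d := by linarith
  have e3 : d ≤ 5 * d / 3 := by linarith
  rw [← intervalIntegral.integral_add_adjacent_intervals (hi 0 (5 * d / 3) le_rfl (by linarith))
    (hi (5 * d / 3) 1 (by linarith) hd1),
    ← intervalIntegral.integral_add_adjacent_intervals (hi 0 d le_rfl hd.le)
    (hi d (5 * d / 3) hd.le e3),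
    ← intervalIntegral.integral_add_adjacent_intervals (hi 0 (d / 3) le_rfl e1)
    (hi (d / 3) d e1 e2)]
  have h1 : ∫ x in (0 : ℝ)..(d / 3), G2 d x = ∫ x in (0 : ℝ)..(d / 3), (3 + 0 * x) := by
    apply intervalIntegral.integral_congr_ae
    refine Filter.Eventually.of_forall fun x hx => ?_
    rw [Set.uIoc_of_le e1, Set.mem_Ioc] at hx
    unfold G2
    have h3 : x / d ≤ 1 / 3 := by
      rw [div_le_iff₀ hd]
      linarith [hx.2]
    rw [if_pos (by linarith [hx.2]), max_eq_left (by linarith)]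
    ring
  have h2 : ∫ x in (d / 3)..d, G2 d x = ∫ x in (d / 3)..d, (1 + 6 / d * x) := by
    apply intervalIntegral.integral_congr_ae
    refine Filter.Eventually.of_forall fun x hx => ?_
    rw [Set.uIoc_of_le e2, Set.mem_Ioc] at hx
    unfold G2
    have h3 : 1 / 3 ≤ x / d := by
      rw [le_div_iff₀ hd]
      linarith [hx.1]
    rw [if_pos hx.2, max_eq_right (by linarith)]
    ring
  have h3 : ∫ x in d..(5 * d / 3), G2 d x = ∫ x in d..(5 * d / 3), (5 + -(3 / d) * x) := by
    apply intervalIntegral.integral_congr_ae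
    refine Filter.Eventually.of_forall fun x hx => ?_
    rw [Set.uIoc_of_le e3, Set.mem_Ioc] at hx
    unfold G2
    have h3 : x / d ≤ 5 / 3 := by
      rw [div_le_iff₀ hd]
      linarith [hx.2]
    rw [if_neg (not_le.2 hx.1), max_eq_right (by linarith)]
    ring
  have h4 : ∫ x in (5 * d / 3)..1, G2 d x = ∫ x in (5 * d / 3)..1, (0 + 0 * x) := by
    apply intervalIntegral.integral_congr_ae
    refine Filter.Eventually.of_forall fun x hx => ?_
    rw [Set.uIoc_of_le hd1, Set.mem_Ioc] at hx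
    unfold G2
    have h3 : 5 / 3 ≤ x / d := by
      rw [le_div_iff₀ hd]
      linarith [hx.1]
    rw [if_neg (by linarith [hx.1]), max_eq_left (by linarith)]
    ring
  rw [h1, h2, h3, h4, lin, lin, lin, lin]
  apply le_of_eq
  field_simp
  ring

theorem small_sets (n : ℕ) (hn : 1 ≤ n) (v : Fin n → ℝ) (hv : Function.Injective v) (m : ℕ)
    (hm : 1 ≤ m) (d : ℝ) (hd : d * ((n : ℝ) - 1) < 1 - 1 / ((m : ℝ) + 1) ∨
      d * ((n : ℝ) - 1) < 6 / 5 - 9 / (5 * ((m : ℝ) + 1))) :
    ∃ t : ℝ, ∃ S : Finset (Fin n), S.Nonempty ∧ S.card ≤ m ∧ ∀ i ∈ S, ∀ j ∉ S,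
      d ≤ |t * (v i - v j) - (round (t * (v i - v j)) : ℝ)| := by
  have hconv : (∃ t : ℝ, Iso m d fun i => t * v i) →
      ∃ t : ℝ, ∃ S : Finset (Fin n), S.Nonempty ∧ S.card ≤ m ∧ ∀ i ∈ S, ∀ j ∉ S,
        d ≤ |t * (v i - v j) - (round (t * (v i - v j)) : ℝ)| := by
    rintro ⟨t, S, h1, h2, h3⟩
    refine ⟨t, S, h1, h2, fun i hi j hj => ?_⟩
    have := h3 i hi j hj
    rw [mul_sub]
    exact this
  rcases le_or_gt n m with hnm | hnm
  · refine ⟨0, Finset.univ, ⟨⟨0, hn⟩, Finset.mem_univ _⟩, ?_, ?_⟩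
    · rw [Finset.card_univ, Fintype.card_fin]
      exact hnm
    · intro i _ j hj
      exact absurd (Finset.mem_univ j) hj
  rcases le_or_gt d 0 with hd0 | hd0
  · refine ⟨0, {⟨0, hn⟩}, Finset.singleton_nonempty _, ?_, ?_⟩
    · rw [Finset.card_singleton]
      exact hm
    · intro i _ j _
      exact hd0.trans (abs_nonneg _)
  have hn2 : 2 ≤ n := by omega
  have hm0 : (0 : ℝ) < (m : ℝ) + 1 := by positivity
  have hm1 : (1 : ℝ) ≤ m := by exact_mod_cast hm
  have hn2' : (2 : ℝ) ≤ n := by exact_mod_cast hn2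
  have hn0 : 0 < n := hn
  -- the two cases
  have hcase : d * ((n : ℝ) - 1) < 1 - 1 / ((m : ℝ) + 1) ∨
      (3 ≤ n ∧ d * ((n : ℝ) - 1) < 6 / 5 - 9 / (5 * ((m : ℝ) + 1))) := by
    rcases hd with h | h
    · exact Or.inl h
    · rcases Nat.lt_or_ge n 3 with h3 | h3
      · left
        have hm' : m = 1 := by omega
        subst hm'
        push_cast at h ⊢
        norm_num at h ⊢
        linarith
      · exact Or.inr ⟨h3, h⟩
  apply hconv
  rcases hcase with h | ⟨h3, h⟩
  · have hd1 : d ≤ 1 := by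
      have h1 : 0 < 1 / ((m : ℝ) + 1) := by positivity
      nlinarith
    refine main v hv (G1 d) (G1_meas d) (G1_nonneg d) 1 (fun s => Or.inl (G1_le d s)) d
      (G1_int d hd0 hd1) ((n : ℝ) * (1 - 1 / ((m : ℝ) + 1))) ?_ (Iso m d) ?_
    · have : (n : ℝ) * ((n : ℝ) - 1) * d = n * (d * ((n : ℝ) - 1)) := by ring
      rw [this]
      exact mul_lt_mul_of_pos_left h (by linarith)
    · intro θ hinj hiso
      exact point1 hn0 θ hinj m d hn2 hiso
  · have h3' : (3 : ℝ) ≤ n := by exact_mod_cast h3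
    have hd1 : 5 * d / 3 ≤ 1 := by
      have h1 : 0 < 9 / (5 * ((m : ℝ) + 1)) := by positivity
      nlinarith
    refine main v hv (G2 d) (G2_meas d) (G2_nonneg d) 7 (G2_le d hd0) (5 * d)
      (G2_int d hd0 hd1) ((n : ℝ) * (6 - 9 / ((m : ℝ) + 1))) ?_ (Iso m d) ?_
    · have e1 : (n : ℝ) * ((n : ℝ) - 1) * (5 * d) = n * (5 * (d * ((n : ℝ) - 1))) := by ring
      have e2 : 6 - 9 / ((m : ℝ) + 1) = 5 * (6 / 5 - 9 / (5 * ((m : ℝ) + 1))) := by
        field_simp
      rw [e1, e2]
      exact mul_lt_mul_of_pos_left (by linarith) (by linarith)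
    · intro θ hinj hiso
      exact point2 hn0 θ hinj m d hd0 h3 hiso

end Pool.Agent.WLR2
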