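import Pool.Agent.WLR2.Final

set_option autoImplicit false

/-!
# MP_10ddbf_co: partitions of the runners into many mutually distant classes
-/

namespace Pool.Agent.WLR2

open MeasureTheory Finset

variable {n : ℕ}

/-- The runners split into `k` mutually distant classes. -/
def Split (k : ℕ) (d : ℝ) (θ : Fin n → ℝ) : Prop :=
  ∃ c : Fin n → Fin k, Function.Surjective c ∧ ∀ i j, c i ≠ c j →
    d ≤ |(θ i - θ j) - (round (θ i - θ j) : ℝ)|

/-- The number of holes before an index. -/
def cnt (E : ℕ → Prop) [DecidablePred E] (u : ℕ) : ℕ := ((range u).filter E).card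

section
variable (E : ℕ → Prop) [DecidablePred E]

theorem cnt_zero : cnt E 0 = 0 := by simp [cnt]

theorem cnt_succ (u : ℕ) : cnt E (u + 1) = cnt E u + if E u then 1 else 0 := by
  unfold cnt
  rw [Finset.range_add_one, Finset.filter_insert]
  split_ifs with h
  · rw [Finset.card_insert_of_notMem (by simp)]
  · rfl

theorem cnt_add (hE : ∀ k, E (k + n) ↔ E k) (u : ℕ) : cnt E (u + n) = cnt E u + cnt E n := by
  induction u with
  | zero => rw [zero_add, cnt_zero, zero_add]
  | succ u ih =>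
    rw [show u + 1 + n = u + n + 1 by ring, cnt_succ, cnt_succ, ih]
    simp only [hE]
    ring

theorem cnt_mono {u w : ℕ} (h : u ≤ w) : cnt E u ≤ cnt E w := by
  unfold cnt
  apply Finset.card_le_card
  apply Finset.filter_subset_filter
  intro x hx
  rw [Finset.mem_range] at hx ⊢
  omega

theorem cnt_lt {u w : ℕ} (huw : u ≤ w) (h : cnt E u ≠ cnt E w) : ∃ z, u ≤ z ∧ z < w ∧ E z := by
  induction w, huw using Nat.le_induction with
  | base => exact absurd rfl h
  | succ w hw ih =>
    by_cases hE : E w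
    · exact ⟨w, hw, Nat.lt_succ_self w, hE⟩
    · rw [cnt_succ, if_neg hE, add_zero] at h
      obtain ⟨z, h1, h2, h3⟩ := ih h
      exact ⟨z, h1, by omega, h3⟩

theorem cnt_surj (w : ℕ) (a : ℕ) (ha : a < cnt E w) : ∃ u, u < w ∧ cnt E u = a := by
  induction w with
  | zero => rw [cnt_zero] at ha; omega
  | succ w ih =>
    rcases Nat.lt_or_ge a (cnt E w) with h | h
    · obtain ⟨u, h1, h2⟩ := ih h
      exact ⟨u, by omega, h2⟩
    · refine ⟨w, Nat.lt_succ_self w, ?_⟩
      rw [cnt_succ] at ha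
      split_ifs at ha with h3 <;> omega

end

theorem split_of_holes (hn : 0 < n) (θ : Fin n → ℝ)
    (hinj : Function.Injective fun i => Int.fract (θ i)) (d : ℝ) (hd : 0 < d) :
    ∃ k : ℕ, 1 ≤ k ∧ ∑ u ∈ range n, (if d ≤ yy hn (fun i => Int.fract (θ i)) (u + 1) -
      yy hn (fun i => Int.fract (θ i)) u then (1 : ℝ) else 0) ≤ k ∧ Split k d θ := by
  have hmono := yy_strictMono hn (fun i => Int.fract (θ i)) hinj
    (fun i => Int.fract_nonneg _) fun i => Int.fract_lt_one _
  have hper := yy_add hn fun i => Int.fract (θ i)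
  set X : Fin n → ℝ := fun i => Int.fract (θ i) with hX
  set Y := yy hn X with hY
  set E : ℕ → Prop := fun u => d ≤ Y (u + 1) - Y u with hE
  have hEper : ∀ k, E (k + n) ↔ E k := by
    intro k
    show d ≤ Y (k + n + 1) - Y (k + n) ↔ d ≤ Y (k + 1) - Y k
    rw [show k + n + 1 = k + 1 + n by ring, hper, hper]
    constructor <;> intro h <;> linarith
  classical
  have hsum : ∑ u ∈ range n, (if d ≤ Y (u + 1) - Y u then (1 : ℝ) else 0) = cnt E n := by
    unfold cnt
    rw [Finset.sum_boole]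
  rcases Nat.eq_zero_or_pos (cnt E n) with h0 | h0
  · refine ⟨1, le_rfl, ?_, fun _ => 0, ?_, ?_⟩
    · rw [hsum, h0]
      norm_num
    · intro b
      exact ⟨⟨0, hn⟩, Subsingleton.elim _ _⟩
    · intro i j hij
      exact absurd rfl hij
  · refine ⟨cnt E n, h0, hsum.le, ?_⟩
    set e := cnt E n with he
    -- the index of a runner
    have hidx : ∀ i : Fin n, ∃ u, u < n ∧ pp hn X u = i := by
      intro i
      obtain ⟨z, _, _, h3⟩ := pp_surj hn X 0 i
      refine ⟨z % n, Nat.mod_lt _ hn, ?_⟩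
      rw [← h3, pp_eq, Nat.mod_mod]
    choose idx hidx1 hidx2 using hidx
    have hcmod : ∀ z, cnt E z % e = cnt E (idx (pp hn X z)) % e := by
      intro z
      have h1 : idx (pp hn X z) % n = z % n := (pp_eq hn X).1 (hidx2 (pp hn X z))
      rw [Nat.mod_eq_of_lt (hidx1 _)] at h1
      have h2 : ∀ q r, cnt E (r + n * q) = cnt E r + e * q := by
        intro q r
        induction q with
        | zero => simp
        | succ q ih =>
          rw [show r + n * (q + 1) = r + n * q + n by ring, cnt_add E hEper, ih]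
          ring
      have h3 : z = idx (pp hn X z) + n * (z / n) := by
        rw [h1]
        exact (Nat.mod_add_div z n).symm
      conv_lhs => rw [h3]
      rw [h2, Nat.add_mul_mod_self_left]
    refine ⟨fun i => ⟨cnt E (idx i) % e, Nat.mod_lt _ h0⟩, ?_, ?_⟩
    · rintro ⟨a, ha⟩
      obtain ⟨u, hu, hua⟩ := cnt_surj E n a ha
      refine ⟨pp hn X u, ?_⟩
      ext
      show cnt E (idx (pp hn X u)) % e = a
      rw [← hcmod, hua, Nat.mod_eq_of_lt ha]
    · intro i j hij
      have hij' : cnt E (idx i) % e ≠ cnt E (idx j) % e := by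
        intro h
        exact hij (Fin.ext h)
      obtain ⟨z, hz1, hz2, hz3⟩ := pp_surj hn X (idx i) j
      have h1 : cnt E (idx j) % e = cnt E z % e := by
        rw [hcmod z, hz3]
      rw [h1] at hij'
      have h2 : cnt E (idx i) ≠ cnt E z := fun h => hij' (by rw [h])
      have h3 : cnt E z ≠ cnt E (idx i + n) := by
        rw [cnt_add E hEper]
        intro h
        apply hij'
        rw [h, Nat.add_mod_right]
      obtain ⟨a, ha1, ha2, ha3⟩ := cnt_lt E hz1.le h2
      obtain ⟨b, hb1, hb2, hb3⟩ := cnt_lt E hz2 h3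
      have e1 := hmono.monotone ha1
      have e2 := hmono.monotone (show a + 1 ≤ z by omega)
      have e3 := hmono.monotone hb1
      have e4 := hmono.monotone (show b + 1 ≤ idx i + n by omega)
      have ha3' : d ≤ Y (a + 1) - Y a := ha3
      have hb3' : d ≤ Y (b + 1) - Y b := hb3
      have e5 := hper (idx i)
      refine round_ge (δ := Y z - Y (idx i)) (by linarith) (by linarith) ?_
      obtain ⟨p, hp⟩ : ∃ p : ℕ, p = z / n := ⟨_, rfl⟩
      obtain ⟨q, hq⟩ : ∃ q : ℕ, q = idx i / n := ⟨_, rfl⟩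
      refine ⟨⌊θ i⌋ - ⌊θ j⌋ + p - q, ?_⟩
      have e6 : Y z = θ j - ⌊θ j⌋ + p := by
        show X (pp hn X z) + ((z / n : ℕ) : ℝ) = _
        rw [hz3, ← hp]
        rfl
      have e7 : Y (idx i) = θ i - ⌊θ i⌋ + q := by
        show X (pp hn X (idx i)) + ((idx i / n : ℕ) : ℝ) = _
        rw [hidx2, ← hq]
        rfl
      rw [e6, e7]
      push_cast
      ring

/-- Many mutually distant classes. -/
theorem many_classes (n : ℕ) (hn : 3 ≤ n) (v : Fin n → ℝ) (hv : Function.Injective v) (d : ℝ)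
    (hd : 0 < d) :
    ∃ t : ℝ, ∃ k : ℕ, (n : ℝ) * (6 - 5 * (d * ((n : ℝ) - 1))) / 9 ≤ k ∧
      ∃ c : Fin n → Fin k, Function.Surjective c ∧ ∀ i j, c i ≠ c j →
        d ≤ |t * (v i - v j) - (round (t * (v i - v j)) : ℝ)| := by
  set A : ℝ := (n : ℝ) * (6 - 5 * (d * ((n : ℝ) - 1))) / 9 with hA
  have hn0 : 0 < n := by omega
  have hn3 : (3 : ℝ) ≤ n := by exact_mod_cast hn
  rcases le_or_gt A 0 with hA0 | hA0
  · refine ⟨0, 1, hA0.trans (by norm_num), fun _ => 0, ?_, ?_⟩
    · intro b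
      exact ⟨⟨0, hn0⟩, Subsingleton.elim _ _⟩
    · intro i j hij
      exact absurd rfl hij
  have hd1 : 5 * d / 3 ≤ 1 := by
    have h1 : 0 < 6 - 5 * (d * ((n : ℝ) - 1)) := by
      by_contra h
      push Not at h
      have : A ≤ 0 := by
        rw [hA]
        have := mul_nonpos_of_nonneg_of_nonpos (by linarith : (0 : ℝ) ≤ n) h
        linarith
      linarith
    nlinarith
  have key := main v hv (G2 d) (G2_meas d) (G2_nonneg d) 7 (G2_le d hd) (5 * d)
    (G2_int d hd hd1) (6 * n - 9 * ((⌈A⌉ : ℝ) - 1)) ?_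
    (fun θ => ∃ k : ℕ, A ≤ k ∧ Split k d θ) ?_
  · obtain ⟨t, k, h1, c, h2, h3⟩ := key
    refine ⟨t, k, h1, c, h2, fun i j hij => ?_⟩
    have := h3 i j hij
    rw [mul_sub]
    exact this
  · have h1 : (⌈A⌉ : ℝ) < A + 1 := Int.ceil_lt_add_one A
    have h2 : (n : ℝ) * ((n : ℝ) - 1) * (5 * d) = 6 * n - 9 * A := by
      rw [hA]
      ring
    rw [h2]
    linarith
  · intro θ hinj hno
    have h1 := point2_sum hn0 θ hinj d hd hn
    obtain ⟨k, hk1, hk2, hk3⟩ := split_of_holes hn0 θ hinj d hd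
    have h2 : ¬ A ≤ k := fun h => hno ⟨k, h, hk3⟩
    push Not at h2
    have h3 : (k : ℤ) + 1 ≤ ⌈A⌉ := by
      have : (k : ℤ) < ⌈A⌉ := by
        rw [Int.lt_ceil]
        exact_mod_cast h2
      omega
    have h4 : (k : ℝ) + 1 ≤ (⌈A⌉ : ℝ) := by exact_mod_cast h3
    linarith

end Pool.Agent.WLR2
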