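import Pool.Agent.WLR2.Seq

set_option autoImplicit false

/-!
# MP_10ddbf_co: small isolated sets of runners: the inequality at one time
-/

namespace Pool.Agent.WLR2

open Finset

/-! ### Periodic sequences -/

theorem sum_shift_one {n : ℕ} (f : ℕ → ℝ) (hf : ∀ k, f (k + n) = f k) :
    ∑ u ∈ range n, f (u + 1) = ∑ u ∈ range n, f u := by
  have h1 := Finset.sum_range_succ f n
  have h2 := Finset.sum_range_succ' f n
  have h3 := hf 0
  rw [zero_add] at h3
  linarith

theorem sum_shift {n : ℕ} (f : ℕ → ℝ) (hf : ∀ k, f (k + n) = f k) (s : ℕ) :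
    ∑ u ∈ range n, f (u + s) = ∑ u ∈ range n, f u := by
  induction s with
  | zero => rfl
  | succ s ih =>
    rw [← ih]
    have h := sum_shift_one (n := n) (fun k => f (k + s)) fun k => by
      show f (k + n + s) = f (k + s)
      rw [show k + n + s = k + s + n by ring, hf]
    rw [← h]
    apply Finset.sum_congr rfl
    intro u _
    show f (u + (s + 1)) = f (u + 1 + s)
    congr 1
    ring

/-- Few holes, if they are far apart. -/
theorem few_holes {n : ℕ} (m : ℕ) (E : ℕ → Prop) [DecidablePred E] (hE : ∀ k, E (k + n) ↔ E k)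
    (hfar : ∀ u, E u → ∀ k, 1 ≤ k → k ≤ m → ¬ E (u + k)) :
    ((m : ℝ) + 1) * ∑ u ∈ range n, (if E u then (1 : ℝ) else 0) ≤ n := by
  have h1 : ∀ s, ∑ u ∈ range n, (if E (u + s) then (1 : ℝ) else 0) =
      ∑ u ∈ range n, (if E u then (1 : ℝ) else 0) := by
    intro s
    refine sum_shift (fun k => if E k then (1 : ℝ) else 0) (fun k => ?_) s
    simp only [hE]
  have h2 : ((m : ℝ) + 1) * ∑ u ∈ range n, (if E u then (1 : ℝ) else 0) =
      ∑ u ∈ range n, ∑ s ∈ range (m + 1), (if E (u + s) then (1 : ℝ) else 0) := by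
    rw [Finset.sum_comm, Finset.sum_congr rfl fun s _ => h1 s, Finset.sum_const,
      Finset.card_range, nsmul_eq_mul]
    push_cast
    ring
  rw [h2]
  have h3 : ∀ u ∈ range n, ∑ s ∈ range (m + 1), (if E (u + s) then (1 : ℝ) else 0) ≤ 1 := by
    intro u _
    rw [Finset.sum_boole]
    have h4 : ((range (m + 1)).filter fun s => E (u + s)).card ≤ 1 := by
      rw [Finset.card_le_one]
      intro a ha b hb
      rw [Finset.mem_filter, Finset.mem_range] at ha hb
      by_contra hne
      rcases Nat.lt_or_gt_of_ne hne with h | h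
      · have := hfar (u + a) ha.2 (b - a) (by omega) (by omega)
        rw [show u + a + (b - a) = u + b by omega] at this
        exact this hb.2
      · have := hfar (u + b) hb.2 (a - b) (by omega) (by omega)
        rw [show u + b + (a - b) = u + a by omega] at this
        exact this ha.2
    exact_mod_cast h4
  refine (Finset.sum_le_sum h3).trans ?_
  simp

/-! ### The pairs at a bounded number of steps -/

variable {n : ℕ}

theorem pairs (hn : 0 < n) (θ : Fin n → ℝ) (hinj : Function.Injective fun i => Int.fract (θ i))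
    (G : ℝ → ℝ) (hG : ∀ s, 0 ≤ G s) (K : ℕ) (hK : K < n) :
    ∑ u ∈ range n, ∑ r ∈ range K, G (yy hn (fun i => Int.fract (θ i)) (u + (r + 1)) -
      yy hn (fun i => Int.fract (θ i)) u) ≤
    ∑ i, ∑ j ∈ univ.erase i, G (Int.fract (θ j - θ i)) := by
  set X : Fin n → ℝ := fun i => Int.fract (θ i) with hX
  rw [← sum_pp hn X fun i => ∑ j ∈ univ.erase i, G (Int.fract (θ j - θ i))]
  apply Finset.sum_le_sum
  intro u _
  have h1 : ∑ r ∈ range K, G (yy hn X (u + (r + 1)) - yy hn X u) =
      ∑ j ∈ (range K).image (fun r => pp hn X (u + (r + 1))),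
        G (Int.fract (θ j - θ (pp hn X u))) := by
    rw [Finset.sum_image]
    · apply Finset.sum_congr rfl
      intro r hr
      rw [Finset.mem_range] at hr
      rw [fract_pp hn θ hinj u (r + 1) (by omega)]
    · intro a ha b hb hab
      have ha' : a < K := by simpa using ha
      have hb' : b < K := by simpa using hb
      have hab' : (u + (a + 1)) % n = (u + (b + 1)) % n := (pp_eq hn X).1 hab
      have h2 : u + (a + 1) ≡ u + (b + 1) [MOD n] := hab'
      have h3 := Nat.ModEq.add_left_cancel' u h2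
      have h4 : (a + 1) % n = (b + 1) % n := h3
      rw [Nat.mod_eq_of_lt (by omega), Nat.mod_eq_of_lt (by omega)] at h4
      omega
  rw [h1]
  apply Finset.sum_le_sum_of_subset_of_nonneg
  · intro j hj
    rw [Finset.mem_image] at hj
    obtain ⟨r, hr, rfl⟩ := hj
    rw [Finset.mem_range] at hr
    rw [Finset.mem_erase]
    refine ⟨fun h => ?_, Finset.mem_univ _⟩
    have h2 : u + (r + 1) ≡ u + 0 [MOD n] := (pp_eq hn X).1 h
    have h3 := Nat.ModEq.add_left_cancel' u h2
    have h4 : (r + 1) % n = 0 % n := h3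
    rw [Nat.mod_eq_of_lt (by omega), Nat.zero_mod] at h4
    omega
  · intro j _ _
    exact hG _

/-- The conclusion at one time: a small isolated set. -/
def Iso (m : ℕ) (d : ℝ) (θ : Fin n → ℝ) : Prop :=
  ∃ S : Finset (Fin n), S.Nonempty ∧ S.card ≤ m ∧ ∀ i ∈ S, ∀ j ∉ S,
    d ≤ |(θ i - θ j) - (round (θ i - θ j) : ℝ)|

/-- The function for one step. -/
noncomputable def G1 (d s : ℝ) : ℝ := if s ≤ d then 1 else 0

/-- The function for two steps. -/
noncomputable def G2 (d s : ℝ) : ℝ :=
  if s ≤ d then 3 + 2 * max 0 (3 * (s / d) - 1) else max 0 (5 - 3 * (s / d))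

theorem G1_nonneg (d s : ℝ) : 0 ≤ G1 d s := by
  unfold G1
  split_ifs <;> norm_num

theorem G2_nonneg (d s : ℝ) : 0 ≤ G2 d s := by
  unfold G2
  split_ifs
  · have := le_max_left 0 (3 * (s / d) - 1)
    linarith
  · exact le_max_left _ _

section
variable (hn : 0 < n) (θ : Fin n → ℝ) (hinj : Function.Injective fun i => Int.fract (θ i))
  (m : ℕ) (d : ℝ)
include hn hinj

theorem holes (hiso : ¬ Iso m d θ) :
    ((m : ℝ) + 1) * ∑ u ∈ range n, (if d ≤ yy hn (fun i => Int.fract (θ i)) (u + 1) -
      yy hn (fun i => Int.fract (θ i)) u then (1 : ℝ) else 0) ≤ n := by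
  refine few_holes m (fun u => d ≤ yy hn (fun i => Int.fract (θ i)) (u + 1) -
      yy hn (fun i => Int.fract (θ i)) u) (fun k => ?_) ?_
  · show d ≤ _ ↔ d ≤ _
    rw [show k + n + 1 = k + 1 + n by ring, yy_add, yy_add]
    constructor <;> intro h <;> linarith
  · intro u hu k hk hkm h
    apply hiso
    obtain ⟨S, h1, h2, h3⟩ := isolated hn θ hinj d u k hk hu h
    exact ⟨S, h1, h2.trans hkm, h3⟩

theorem point1 (h2n : 2 ≤ n) (hiso : ¬ Iso m d θ) :
    (n : ℝ) * (1 - 1 / ((m : ℝ) + 1)) ≤
      ∑ i, ∑ j ∈ univ.erase i, G1 d (Int.fract (θ j - θ i)) := by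
  have h1 := pairs hn θ hinj (G1 d) (G1_nonneg d) 1 (by omega)
  have h2 := holes hn θ hinj m d hiso
  set Y := yy hn fun i => Int.fract (θ i) with hY
  have h3 : ∑ u ∈ range n, ∑ r ∈ range 1, G1 d (Y (u + (r + 1)) - Y u) =
      ∑ u ∈ range n, G1 d (Y (u + 1) - Y u) := by simp
  have h4 : ∀ u ∈ range n, 1 - (if d ≤ Y (u + 1) - Y u then (1 : ℝ) else 0) ≤
      G1 d (Y (u + 1) - Y u) := by
    intro u _
    unfold G1
    split_ifs with h5 h6
    · norm_num
    · norm_num
    · norm_num
    · exfalso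
      linarith
  have h5 := Finset.sum_le_sum h4
  rw [Finset.sum_sub_distrib, Finset.sum_const, Finset.card_range, nsmul_eq_mul] at h5
  set e := ∑ u ∈ range n, (if d ≤ Y (u + 1) - Y u then (1 : ℝ) else 0) with he
  have hm : (0 : ℝ) < (m : ℝ) + 1 := by positivity
  have h6 : e ≤ n / ((m : ℝ) + 1) := by
    rw [le_div_iff₀ hm]
    linarith
  have h7 : (n : ℝ) * (1 - 1 / ((m : ℝ) + 1)) = n - n / ((m : ℝ) + 1) := by ring
  rw [h7]
  linarith

/-- The inequality with the number of holes. -/
theorem point2_sum (hd : 0 < d) (h3n : 3 ≤ n) :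
    6 * (n : ℝ) - 9 * ∑ u ∈ range n, (if d ≤ yy hn (fun i => Int.fract (θ i)) (u + 1) -
      yy hn (fun i => Int.fract (θ i)) u then (1 : ℝ) else 0) ≤
      ∑ i, ∑ j ∈ univ.erase i, G2 d (Int.fract (θ j - θ i)) := by
  have h1 := pairs hn θ hinj (G2 d) (G2_nonneg d) 2 (by omega)
  have hper := yy_add hn fun i => Int.fract (θ i)
  have hmono := yy_strictMono hn (fun i => Int.fract (θ i)) hinj
    (fun i => Int.fract_nonneg _) fun i => Int.fract_lt_one _
  set Y := yy hn fun i => Int.fract (θ i) with hY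
  set a : ℕ → ℝ := fun u => Y (u + 1) - Y u with ha
  have ha0 : ∀ u, 0 < a u := fun u => sub_pos.2 (hmono (Nat.lt_succ_self u))
  have haper : ∀ u, a (u + n) = a u := by
    intro u
    show Y (u + n + 1) - Y (u + n) = Y (u + 1) - Y u
    rw [show u + n + 1 = u + 1 + n by ring, hper, hper]
    ring
  set e : ℕ → ℝ := fun u => if d ≤ a u then 1 else 0 with he
  set q : ℕ → ℝ := fun u => if d ≤ a u then 0 else max 0 (3 * (a u / d) - 1) with hq
  have heper : ∀ u, e (u + n) = e u := fun u => by simp only [he, haper]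
  have hqper : ∀ u, q (u + n) = q u := fun u => by simp only [hq, haper]
  have h3 : ∑ u ∈ range n, ∑ r ∈ range 2, G2 d (Y (u + (r + 1)) - Y u) =
      ∑ u ∈ range n, (G2 d (a u) + G2 d (a u + a (u + 1))) := by
    apply Finset.sum_congr rfl
    intro u _
    rw [Finset.sum_range_succ, Finset.sum_range_one]
    congr 2
    show Y (u + (1 + 1)) - Y u = Y (u + 1) - Y u + (Y (u + 1 + 1) - Y (u + 1))
    rw [show u + (1 + 1) = u + 1 + 1 by ring]
    ring
  have h4 : ∀ u ∈ range n, (3 - 3 * e u + 2 * q u) +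
      (3 - 3 * e u - 3 * e (u + 1) - q u - q (u + 1)) ≤ G2 d (a u) + G2 d (a u + a (u + 1)) := by
    intro u _
    have p1 : 3 - 3 * e u + 2 * q u ≤ G2 d (a u) := by
      by_cases h : d ≤ a u
      · simp only [he, hq, h, if_true]
        have := G2_nonneg d (a u)
        linarith
      · simp only [he, hq, h, if_false]
        unfold G2
        rw [if_pos (by linarith)]
        linarith
    have p2 : 3 - 3 * e u - 3 * e (u + 1) - q u - q (u + 1) ≤ G2 d (a u + a (u + 1)) := by
      have hq0 : ∀ u, 0 ≤ q u := by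
        intro u
        simp only [hq]
        split_ifs
        · exact le_rfl
        · exact le_max_left _ _
      have he0 : ∀ u, 0 ≤ e u := by
        intro u
        simp only [he]
        split_ifs <;> norm_num
      by_cases h : d ≤ a u
      · have e1 : e u = 1 := by simp only [he, h, if_true]
        have := G2_nonneg d (a u + a (u + 1))
        linarith [hq0 u, hq0 (u + 1), he0 (u + 1)]
      by_cases h' : d ≤ a (u + 1)
      · have e1 : e (u + 1) = 1 := by simp only [he, h', if_true]
        have := G2_nonneg d (a u + a (u + 1))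
        linarith [hq0 u, hq0 (u + 1), he0 u]
      have e1 : e u = 0 := by simp only [he, h, if_false]
      have e2 : e (u + 1) = 0 := by simp only [he, h', if_false]
      have e3 : q u = max 0 (3 * (a u / d) - 1) := by simp only [hq, h, if_false]
      have e4 : q (u + 1) = max 0 (3 * (a (u + 1) / d) - 1) := by simp only [hq, h', if_false]
      unfold G2
      split_ifs with h5
      · have := le_max_left 0 (3 * ((a u + a (u + 1)) / d) - 1)
        linarith [hq0 u, hq0 (u + 1)]
      · have k1 := le_max_right 0 (5 - 3 * ((a u + a (u + 1)) / d))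
        have k2 := le_max_right 0 (3 * (a u / d) - 1)
        have k3 := le_max_right 0 (3 * (a (u + 1) / d) - 1)
        have k4 : (a u + a (u + 1)) / d = a u / d + a (u + 1) / d := by ring
        rw [k4] at k1 ⊢
        linarith
    linarith
  have h5 := Finset.sum_le_sum h4
  have h6 : ∑ u ∈ range n, ((3 - 3 * e u + 2 * q u) +
      (3 - 3 * e u - 3 * e (u + 1) - q u - q (u + 1))) =
      6 * n - 9 * ∑ u ∈ range n, e u := by
    have s1 := sum_shift_one e heper
    have s2 := sum_shift_one q hqper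
    simp only [Finset.sum_add_distrib, Finset.sum_sub_distrib, ← Finset.mul_sum,
      Finset.sum_const, Finset.card_range, nsmul_eq_mul]
    rw [s1, s2]
    ring
  rw [h6] at h5
  rw [h3] at h1
  exact h5.trans h1

theorem point2 (hd : 0 < d) (h3n : 3 ≤ n) (hiso : ¬ Iso m d θ) :
    (n : ℝ) * (6 - 9 / ((m : ℝ) + 1)) ≤
      ∑ i, ∑ j ∈ univ.erase i, G2 d (Int.fract (θ j - θ i)) := by
  have h1 := point2_sum hn θ hinj d hd h3n
  have h2 := holes hn θ hinj m d hiso
  set E := ∑ u ∈ range n, (if d ≤ yy hn (fun i => Int.fract (θ i)) (u + 1) -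
      yy hn (fun i => Int.fract (θ i)) u then (1 : ℝ) else 0) with hE
  have hm : (0 : ℝ) < (m : ℝ) + 1 := by positivity
  have h7 : E ≤ n / ((m : ℝ) + 1) := by
    rw [le_div_iff₀ hm]
    linarith
  have h8 : (n : ℝ) * (6 - 9 / ((m : ℝ) + 1)) = 6 * n - 9 * (n / ((m : ℝ) + 1)) := by ring
  rw [h8]
  linarith

/-- The holes are runners with nobody ahead. -/
theorem holes_le (C : Finset (Fin n)) (hC : ∀ i, (∀ j, j ≠ i → d ≤ Int.fract (θ j - θ i)) → i ∈ C) :
    ∑ u ∈ range n, (if d ≤ yy hn (fun i => Int.fract (θ i)) (u + 1) -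
      yy hn (fun i => Int.fract (θ i)) u then (1 : ℝ) else 0) ≤ C.card := by
  have hmono := yy_strictMono hn (fun i => Int.fract (θ i)) hinj
    (fun i => Int.fract_nonneg _) fun i => Int.fract_lt_one _
  have h1 : (C.card : ℝ) = ∑ u ∈ range n,
      (if pp hn (fun i => Int.fract (θ i)) u ∈ C then (1 : ℝ) else 0) := by
    rw [sum_pp hn (fun i => Int.fract (θ i)) fun i => if i ∈ C then (1 : ℝ) else 0,
      Finset.sum_ite_mem, Finset.univ_inter, Finset.sum_const, nsmul_eq_mul, mul_one]
  rw [h1]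
  apply Finset.sum_le_sum
  intro u _
  split_ifs with h2 h3
  · exact le_rfl
  · exfalso
    apply h3
    apply hC
    intro j hj
    obtain ⟨z, hz1, hz2, rfl⟩ := pp_surj hn (fun i => Int.fract (θ i)) u j
    have hz3 : z ≠ u + n := by
      rintro rfl
      exact hj (pp_add hn _ u)
    obtain ⟨r, rfl⟩ := Nat.exists_eq_add_of_lt hz1
    have e1 : u + r + 1 = u + (r + 1) := by ring
    rw [e1, fract_pp hn θ hinj u (r + 1) (by omega)]
    have h4 := hmono.monotone (show u + 1 ≤ u + (r + 1) by omega)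
    linarith
  · norm_num
  · exact le_rfl

end

end Pool.Agent.WLR2
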