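import Mathlib

set_option autoImplicit false

/-!
# MP_10ddbf_co: small isolated sets of runners: the cyclic order

The runners at one time, in cyclic order, as a sequence indexed by the natural numbers.
-/

namespace Pool.Agent.WLR2

variable {n : ℕ}

/-- The runner with index `k` in the cyclic order. -/
noncomputable def pp (hn : 0 < n) (X : Fin n → ℝ) (k : ℕ) : Fin n :=
  Tuple.sort X ⟨k % n, Nat.mod_lt _ hn⟩

/-- The lifted position of the runner with index `k`. -/
noncomputable def yy (hn : 0 < n) (X : Fin n → ℝ) (k : ℕ) : ℝ :=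
  X (pp hn X k) + ((k / n : ℕ) : ℝ)

variable (hn : 0 < n) (X : Fin n → ℝ)

theorem pp_add (k : ℕ) : pp hn X (k + n) = pp hn X k := by
  unfold pp
  congr 1
  ext
  simp

theorem yy_add (k : ℕ) : yy hn X (k + n) = yy hn X k + 1 := by
  unfold yy
  rw [pp_add, Nat.add_div_right _ hn]
  push_cast
  ring

theorem pp_eq {k l : ℕ} : pp hn X k = pp hn X l ↔ k % n = l % n := by
  unfold pp
  rw [Equiv.apply_eq_iff_eq, Fin.mk.injEq]

theorem yy_lt_succ (hinj : Function.Injective X) (h0 : ∀ i, 0 ≤ X i) (h1 : ∀ i, X i < 1) (k : ℕ) :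
    yy hn X k < yy hn X (k + 1) := by
  have hmono : StrictMono (X ∘ Tuple.sort X) :=
    (Tuple.monotone_sort X).strictMono_of_injective (hinj.comp (Tuple.sort X).injective)
  unfold yy
  by_cases h : k % n + 1 < n
  · have e1 : (k + 1) % n = k % n + 1 := by
      rw [Nat.add_mod, Nat.mod_eq_of_lt (a := 1) (by omega), Nat.mod_eq_of_lt h]
    have e2 : (k + 1) / n = k / n := by
      have h3 := Nat.div_add_mod k n
      have h4 := Nat.div_add_mod (k + 1) n
      rw [e1] at h4
      have h5 : n * ((k + 1) / n) = n * (k / n) := by omega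
      exact Nat.eq_of_mul_eq_mul_left hn h5
    rw [e2]
    have h3 : X (pp hn X k) < X (pp hn X (k + 1)) := by
      unfold pp
      apply hmono
      show k % n < (k + 1) % n
      omega
    linarith
  · have hk : k % n + 1 = n := by
      have := Nat.mod_lt k hn
      omega
    have h3 := Nat.div_add_mod k n
    have e2 : (k + 1) / n = k / n + 1 := by
      have h5 : k + 1 = n * (k / n + 1) := by
        rw [mul_add]
        omega
      rw [h5, Nat.mul_div_cancel_left _ hn]
    rw [e2]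
    push_cast
    have h5 := h0 (pp hn X (k + 1))
    have h6 := h1 (pp hn X k)
    linarith

theorem yy_strictMono (hinj : Function.Injective X) (h0 : ∀ i, 0 ≤ X i) (h1 : ∀ i, X i < 1) :
    StrictMono (yy hn X) :=
  strictMono_nat_of_lt_succ (yy_lt_succ hn X hinj h0 h1)

/-- Every runner has an index among any `n` consecutive ones. -/
theorem pp_surj (u : ℕ) (j : Fin n) : ∃ z, u < z ∧ z ≤ u + n ∧ pp hn X z = j := by
  set r : ℕ := ((Tuple.sort X).symm j).1 with hr
  have hrn : r < n := ((Tuple.sort X).symm j).2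
  have hpp : ∀ z, z % n = r → pp hn X z = j := by
    intro z hz
    unfold pp
    rw [← Equiv.eq_symm_apply]
    ext
    exact hz
  have h3 := Nat.div_add_mod u n
  have h4 := Nat.mod_lt u hn
  rcases Nat.lt_or_ge (u % n) r with h | h
  · refine ⟨n * (u / n) + r, by omega, by omega, hpp _ ?_⟩
    rw [Nat.mul_add_mod, Nat.mod_eq_of_lt hrn]
  · refine ⟨n * (u / n + 1) + r, ?_, ?_, hpp _ ?_⟩
    · rw [mul_add]
      omega
    · rw [mul_add]
      omega
    · rw [Nat.mul_add_mod, Nat.mod_eq_of_lt hrn]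

theorem sum_pp {M : Type*} [AddCommMonoid M] (f : Fin n → M) :
    ∑ k ∈ Finset.range n, f (pp hn X k) = ∑ i, f i := by
  rw [← Equiv.sum_comp (Tuple.sort X) f, Finset.sum_range]
  apply Finset.sum_congr rfl
  intro k _
  unfold pp
  congr 2
  ext
  exact Nat.mod_eq_of_lt k.2

/-- Clockwise distances. -/
theorem fract_pp (θ : Fin n → ℝ) (hinj : Function.Injective fun i => Int.fract (θ i)) (u r : ℕ)
    (hr : r < n) :
    Int.fract (θ (pp hn (fun i => Int.fract (θ i)) (u + r)) -
      θ (pp hn (fun i => Int.fract (θ i)) u)) =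
    yy hn (fun i => Int.fract (θ i)) (u + r) - yy hn (fun i => Int.fract (θ i)) u := by
  set X : Fin n → ℝ := fun i => Int.fract (θ i) with hX
  have hm := yy_strictMono hn X hinj (fun i => Int.fract_nonneg _) fun i => Int.fract_lt_one _
  rw [Int.fract_eq_iff]
  refine ⟨?_, ?_, ?_⟩
  · have := hm.monotone (Nat.le_add_right u r)
    linarith
  · have h1 := hm (show u + r < u + n by omega)
    rw [yy_add] at h1
    linarith
  · obtain ⟨a, ha⟩ : ∃ a : ℕ, a = (u + r) / n := ⟨_, rfl⟩
    obtain ⟨b, hb⟩ : ∃ b : ℕ, b = u / n := ⟨_, rfl⟩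
    refine ⟨⌊θ (pp hn X (u + r))⌋ - ⌊θ (pp hn X u)⌋ - a + b, ?_⟩
    have e1 : ∀ i, X i = θ i - ⌊θ i⌋ := fun i => rfl
    unfold yy
    rw [e1, e1, ← ha, ← hb]
    push_cast
    ring

theorem round_ge {x δ d : ℝ} (h1 : d ≤ δ) (h2 : δ ≤ 1 - d) (h : ∃ z : ℤ, x = z - δ) :
    d ≤ |x - (round x : ℝ)| := by
  obtain ⟨z, hz⟩ := h
  set k : ℤ := round x with hk
  rcases le_or_gt z k with h3 | h3
  · have h4 : (z : ℝ) ≤ k := by exact_mod_cast h3
    have h5 : x - k ≤ -d := by linarith
    rw [le_abs]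
    right
    linarith
  · have h4 : (k : ℝ) + 1 ≤ z := by exact_mod_cast h3
    rw [le_abs]
    left
    linarith

/-- An isolated set of runners: between two holes. -/
theorem isolated (θ : Fin n → ℝ) (hinj : Function.Injective fun i => Int.fract (θ i)) (d : ℝ)
    (u k : ℕ) (hk : 1 ≤ k)
    (hu : d ≤ yy hn (fun i => Int.fract (θ i)) (u + 1) - yy hn (fun i => Int.fract (θ i)) u)
    (huk : d ≤ yy hn (fun i => Int.fract (θ i)) (u + k + 1) -
      yy hn (fun i => Int.fract (θ i)) (u + k)) :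
    ∃ S : Finset (Fin n), S.Nonempty ∧ S.card ≤ k ∧ ∀ i ∈ S, ∀ j ∉ S,
      d ≤ |(θ i - θ j) - (round (θ i - θ j) : ℝ)| := by
  set X : Fin n → ℝ := fun i => Int.fract (θ i) with hX
  have hm := yy_strictMono hn X hinj (fun i => Int.fract_nonneg _) fun i => Int.fract_lt_one _
  refine ⟨(Finset.Ioc u (u + k)).image (pp hn X), ?_, ?_, ?_⟩
  · refine Finset.Nonempty.image ⟨u + 1, ?_⟩ _
    rw [Finset.mem_Ioc]
    omega
  · refine Finset.card_image_le.trans ?_
    simp
  · intro i hi j hj
    rw [Finset.mem_image] at hi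
    obtain ⟨z, hz, rfl⟩ := hi
    rw [Finset.mem_Ioc] at hz
    obtain ⟨z', h1, h2, h3⟩ := pp_surj hn X u j
    have h4 : u + k < z' := by
      by_contra h5
      apply hj
      rw [Finset.mem_image]
      exact ⟨z', Finset.mem_Ioc.2 ⟨h1, by omega⟩, h3⟩
    subst h3
    refine round_ge (δ := yy hn X z' - yy hn X z) ?_ ?_ ?_
    · have h5 := hm.monotone (show u + k + 1 ≤ z' by omega)
      have h6 := hm.monotone hz.2
      linarith
    · have h5 := hm.monotone h2
      have h6 := hm.monotone (show u + 1 ≤ z by omega)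
      rw [yy_add] at h5
      linarith
    · obtain ⟨a, ha⟩ : ∃ a : ℕ, a = z' / n := ⟨_, rfl⟩
      obtain ⟨b, hb⟩ : ∃ b : ℕ, b = z / n := ⟨_, rfl⟩
      refine ⟨⌊θ (pp hn X z)⌋ - ⌊θ (pp hn X z')⌋ + a - b, ?_⟩
      have e1 : ∀ i, X i = θ i - ⌊θ i⌋ := fun i => rfl
      unfold yy
      rw [e1, e1, ← ha, ← hb]
      push_cast
      ring

end Pool.Agent.WLR2
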